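import Mathlib
import Pool.Agent.U54.Hole.Main

/-! # A 2-design whose spectrum of minimal defining sets has a hole (MP_13ec72_co, Q1)

The complement of the Fano plane in the set of all triples of seven points is a simple 2-(7,3,4)
design with 28 blocks.  Its minimal defining sets have exactly the sizes 7, 8, 9, 10 and 13. -/

set_option autoImplicit false

namespace Pool.Agent.Results.MP_13ec72_co.SpectrumHole

open Pool.Agent.U54.Hole

/-- The 28 triples of points of `{0, ..., 6}` that are not lines of the Fano plane with the lines
012, 034, 056, 135, 146, 236, 245. -/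
def fanoComplement : Finset (Finset (Fin 7)) :=
  Finset.univ.filter (fun b => b.card = 3 ∧
    b ∉ ({{0, 1, 2}, {0, 3, 4}, {0, 5, 6}, {1, 3, 5}, {1, 4, 6}, {2, 3, 6}, {2, 4, 5}} :
      Finset (Finset (Fin 7))))

theorem fanoComplement_eq : fanoComplement = des F0 := by decide +kernel

theorem result :
    IsDesign 2 3 4 fanoComplement ∧
      spectrum 2 3 4 fanoComplement = {7, 8, 9, 10, 13} ∧
      HasHole (spectrum 2 3 4 fanoComplement) := by
  rw [fanoComplement_eq]
  refine ⟨des_isDesign (by simp [fan]), spectrum_eq, ?_⟩
  rw [spectrum_eq]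
  exact ⟨10, by simp, 13, by simp, 11, by norm_num, by norm_num, by simp⟩

end Pool.Agent.Results.MP_13ec72_co.SpectrumHole
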